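import Pool.Agent.SQ.T3.Foe
import Pool.Agent.SQ.T3.OreP

/-!
# SQ, fifth stage: amenable locally indicable groups

`LI Q`: every nontrivial finitely generated subgroup has a nontrivial homomorphism to `ℤ`.  Closure properties, unique products,
Foelner sets in subgroups and products.
-/

set_option autoImplicit false

namespace SQ.T5

open SQ.T3

/-- locally indicable groups -/
def LI (Q : Type) [Group Q] : Prop :=
  ∀ S : Subgroup Q, S.FG → S ≠ ⊥ → ∃ χ : S →* Multiplicative ℤ, ∃ s, χ s ≠ 1

theorem fg_map {G G' : Type} [Group G] [Group G'] {S : Subgroup G} (h : S.FG) (f : G →* G') : (S.map f).FG := by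
  classical
  obtain ⟨T, rfl⟩ := h
  exact ⟨T.image f, by rw [Finset.coe_image, MonoidHom.map_closure]⟩

/-- a residually locally indicable group is locally indicable -/
theorem LI.of_res {K : Type} [Group K] (h : ∀ g : K, g ≠ 1 → ∃ (Q : Type) (_ : Group Q) (π : K →* Q), LI Q ∧ π g ≠ 1) :
    LI K := by
  intro S hS hne
  obtain ⟨g, hg, hg1⟩ : ∃ g ∈ S, g ≠ 1 := by
    by_contra hcon
    push Not at hcon
    exact hne ((Subgroup.eq_bot_iff_forall S).2 hcon)
  obtain ⟨Q, _, π, hQ, hπ⟩ := h g hg1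
  obtain ⟨χ, s, hs⟩ := hQ (S.map π) (fg_map hS π) (by
    intro h0
    have h1 : π g ∈ S.map π := Subgroup.mem_map_of_mem π hg
    rw [h0, Subgroup.mem_bot] at h1
    exact hπ h1)
  let r : S →* S.map π := (π.comp S.subtype).codRestrict (S.map π) fun h => Subgroup.mem_map_of_mem π h.2
  obtain ⟨y, hy, hys⟩ := s.2
  refine ⟨χ.comp r, ⟨y, hy⟩, ?_⟩
  have h2 : r ⟨y, hy⟩ = s := Subtype.ext hys
  show χ (r ⟨y, hy⟩) ≠ 1
  rw [h2]
  exact hs

theorem LI.of_injective {Q Q' : Type} [Group Q] [Group Q'] (h : LI Q) (f : Q' →* Q) (hf : Function.Injective f) : LI Q' :=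
  LI.of_res fun _ hg => ⟨Q, inferInstance, f, h, fun h1 => hg (hf (h1.trans (map_one f).symm))⟩

theorem LI.pi {ι : Type} {Q : ι → Type} [∀ i, Group (Q i)] (h : ∀ i, LI (Q i)) : LI (∀ i, Q i) :=
  LI.of_res fun g hg => by
    obtain ⟨i, hi⟩ : ∃ i, g i ≠ 1 := by
      by_contra hcon
      push Not at hcon
      exact hg (funext hcon)
    exact ⟨Q i, inferInstance, Pi.evalMonoidHom Q i, h i, hi⟩

/-- locally indicable groups have no involutions -/
theorem LI.noInv {Q : Type} [Group Q] (h : LI Q) (g : Q) (hg : g * g = 1) : g = 1 := by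
  by_contra hne
  obtain ⟨χ, s, hs⟩ := h (Subgroup.zpowers g) ⟨{g}, by rw [Finset.coe_singleton, Subgroup.zpowers_eq_closure]⟩ (by
    intro h0
    exact hne (Subgroup.zpowers_eq_bot.1 h0))
  obtain ⟨n, hn⟩ := Subgroup.mem_zpowers_iff.1 s.2
  let γ : Subgroup.zpowers g := ⟨g, Subgroup.mem_zpowers g⟩
  have h1 : χ γ * χ γ = 1 := by
    rw [← map_mul]
    have h2 : γ * γ = 1 := Subtype.ext hg
    rw [h2, map_one]
  have h3 : χ γ = 1 := by
    have h4 : Multiplicative.toAdd (χ γ) + Multiplicative.toAdd (χ γ) = 0 := by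
      rw [← toAdd_mul, h1, toAdd_one]
    exact toAdd_eq_zero.1 (by omega)
  apply hs
  have h5 : s = γ ^ n := Subtype.ext (by rw [← hn]; rfl)
  rw [h5, map_zpow, h3, one_zpow]

/-- unique products -/
theorem LI.uniqueProds {Q : Type} [Group Q] (h : LI Q) : UniqueProds Q := by
  classical
  suffices key : ∀ (n : ℕ) (A B : Finset Q), A.card + B.card ≤ n → A.Nonempty → B.Nonempty →
      ∃ a0 ∈ A, ∃ b0 ∈ B, UniqueMul A B a0 b0 from ⟨fun {A B} hA hB => key _ A B le_rfl hA hB⟩
  intro n
  induction n with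
  | zero =>
    intro A B hn hA _
    have := hA.card_pos
    omega
  | succ n ih =>
    intro A B hn hA hB
    obtain ⟨a1, ha1⟩ := hA
    obtain ⟨b1, hb1⟩ := hB
    let T : Finset Q := A.image (fun a => a1⁻¹ * a) ∪ B.image (fun b => b * b1⁻¹)
    let S : Subgroup Q := Subgroup.closure (T : Set Q)
    have hAS : ∀ a ∈ A, a1⁻¹ * a ∈ S := fun a ha =>
      Subgroup.subset_closure (Finset.mem_coe.2 (Finset.mem_union_left _ (Finset.mem_image_of_mem (fun a => a1⁻¹ * a) ha)))
    have hBS : ∀ b ∈ B, b * b1⁻¹ ∈ S := fun b hb =>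
      Subgroup.subset_closure (Finset.mem_coe.2 (Finset.mem_union_right _ (Finset.mem_image_of_mem (fun b => b * b1⁻¹) hb)))
    by_cases hS : S = ⊥
    · refine ⟨a1, ha1, b1, hb1, fun a b ha hb _ => ?_⟩
      have h1 := hAS a ha
      have h2 := hBS b hb
      rw [hS, Subgroup.mem_bot] at h1 h2
      exact ⟨(inv_mul_eq_one.1 h1).symm, mul_inv_eq_one.1 h2⟩
    · obtain ⟨χ, s, hs⟩ := h S ⟨T, rfl⟩ hS
      let v : Q → ℤ := fun q => if hq : q ∈ S then Multiplicative.toAdd (χ ⟨q, hq⟩) else 0
      have hv : ∀ x ∈ S, ∀ y ∈ S, v (x * y) = v x + v y := by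
        intro x hx y hy
        have hxy := S.mul_mem hx hy
        have h1 : v (x * y) = Multiplicative.toAdd (χ ⟨x * y, hxy⟩) := dif_pos hxy
        have h2 : v x = Multiplicative.toAdd (χ ⟨x, hx⟩) := dif_pos hx
        have h3 : v y = Multiplicative.toAdd (χ ⟨y, hy⟩) := dif_pos hy
        rw [h1, h2, h3, ← toAdd_mul, ← map_mul]
        rfl
      have hv1 : v 1 = 0 := by
        have := hv 1 S.one_mem 1 S.one_mem
        rw [mul_one] at this
        omega
      -- `v` is nonzero on some generator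
      have hex : ∃ q ∈ T, v q ≠ 0 := by
        by_contra hcon
        push Not at hcon
        apply hs
        have hall : ∀ x (hx : x ∈ S), v x = 0 := by
          intro x hx
          induction hx using Subgroup.closure_induction with
          | mem x hx => exact hcon x hx
          | one => exact hv1
          | mul x y hx hy h1 h2 => rw [hv x hx y hy, h1, h2, add_zero]
          | inv x hx h1 =>
            have h2 := hv x hx x⁻¹ (S.inv_mem hx)
            rw [mul_inv_cancel, hv1, h1] at h2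
            omega
        have h1 := hall s s.2
        have h2 : v s = Multiplicative.toAdd (χ s) := dif_pos s.2
        rw [h2] at h1
        exact toAdd_eq_zero.1 h1
      obtain ⟨a2, ha2, hmA⟩ := A.exists_max_image (fun a => v (a1⁻¹ * a)) ⟨a1, ha1⟩
      obtain ⟨b2, hb2, hmB⟩ := B.exists_max_image (fun b => v (b * b1⁻¹)) ⟨b1, hb1⟩
      let A' := A.filter fun a => v (a1⁻¹ * a) = v (a1⁻¹ * a2)
      let B' := B.filter fun b => v (b * b1⁻¹) = v (b2 * b1⁻¹)
      have hlt : A'.card + B'.card < A.card + B.card := by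
        have hA' : A'.card ≤ A.card := Finset.card_filter_le _ _
        have hB' : B'.card ≤ B.card := Finset.card_filter_le _ _
        obtain ⟨q, hq, hvq⟩ := hex
        rcases Finset.mem_union.1 hq with hq | hq
        · obtain ⟨a, ha, rfl⟩ := Finset.mem_image.1 hq
          have : A'.card < A.card := by
            refine Finset.card_lt_card ⟨Finset.filter_subset _ _, fun hsub => ?_⟩
            have h1 := (Finset.mem_filter.1 (hsub ha)).2
            have h2 := (Finset.mem_filter.1 (hsub ha1)).2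
            rw [inv_mul_cancel, hv1] at h2
            exact hvq (h1.trans h2.symm)
          omega
        · obtain ⟨b, hb, rfl⟩ := Finset.mem_image.1 hq
          have : B'.card < B.card := by
            refine Finset.card_lt_card ⟨Finset.filter_subset _ _, fun hsub => ?_⟩
            have h1 := (Finset.mem_filter.1 (hsub hb)).2
            have h2 := (Finset.mem_filter.1 (hsub hb1)).2
            rw [mul_inv_cancel, hv1] at h2
            exact hvq (h1.trans h2.symm)
          omega
      obtain ⟨a0, ha0, b0, hb0, hu⟩ := ih A' B' (by omega) ⟨a2, Finset.mem_filter.2 ⟨ha2, rfl⟩⟩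
        ⟨b2, Finset.mem_filter.2 ⟨hb2, rfl⟩⟩
      obtain ⟨ha0A, ha0v⟩ := Finset.mem_filter.1 ha0
      obtain ⟨hb0B, hb0v⟩ := Finset.mem_filter.1 hb0
      refine ⟨a0, ha0A, b0, hb0B, fun a b ha hb hab => ?_⟩
      have h1 : v (a1⁻¹ * a) + v (b * b1⁻¹) = v (a1⁻¹ * a0) + v (b0 * b1⁻¹) := by
        rw [← hv _ (hAS a ha) _ (hBS b hb), ← hv _ (hAS a0 ha0A) _ (hBS b0 hb0B)]
        congr 1
        rw [mul_assoc, ← mul_assoc a, hab, mul_assoc, mul_assoc]
      have h2 := hmA a ha
      have h3 := hmB b hb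
      exact hu (Finset.mem_filter.2 ⟨ha, by omega⟩) (Finset.mem_filter.2 ⟨hb, by omega⟩) hab

theorem LI.noZeroDivisors {Q : Type} [Group Q] (h : LI Q) : NoZeroDivisors (MonoidAlgebra (ZMod 2) Q) := by
  have := h.uniqueProds
  infer_instance

/-! ### Foelner sets -/

theorem foe_triv {Q : Type} [Group Q] (h : ∀ q : Q, q = 1) : Foe Q := by
  intro S k
  refine ⟨{1}, {1}, Finset.singleton_nonempty 1, subset_rfl, fun q _ s _ => Finset.mem_singleton.2 (h _), ?_⟩
  rw [Finset.card_singleton]
  omega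

theorem foe_prod {Q Q' : Type} [Group Q] [Group Q'] (h : Foe Q) (h' : Foe Q') : Foe (Q × Q') := by
  classical
  intro S k
  obtain ⟨Φ, I, h1, h2, h3, h4⟩ := h (S.image Prod.fst) (2 * k + 2)
  obtain ⟨Φ', I', h1', h2', h3', h4'⟩ := h' (S.image Prod.snd) (2 * k + 2)
  refine ⟨Φ ×ˢ Φ', I ×ˢ I', h1.product h1', Finset.product_subset_product h2 h2', ?_, ?_⟩
  · intro q hq s hs
    obtain ⟨hq1, hq2⟩ := Finset.mem_product.1 hq
    exact Finset.mem_product.2 ⟨h3 _ hq1 _ (Finset.mem_image_of_mem _ hs), h3' _ hq2 _ (Finset.mem_image_of_mem _ hs)⟩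
  · rw [Finset.card_product, Finset.card_product]
    have h5 := Nat.mul_le_mul h4 h4'
    have h6 : (2 * k + 4) * (2 * k + 4) * (k + 1) ≤ (2 * k + 3) * (2 * k + 3) * (k + 2) := by nlinarith
    have h7 : (2 * k + 3) * (2 * k + 3) * ((k + 1) * (Φ.card * Φ'.card)) ≤
        (2 * k + 3) * (2 * k + 3) * ((k + 2) * (I.card * I'.card)) := by
      calc (2 * k + 3) * (2 * k + 3) * ((k + 1) * (Φ.card * Φ'.card))
          = (k + 1) * ((2 * k + 2 + 1) * Φ.card * ((2 * k + 2 + 1) * Φ'.card)) := by ring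
        _ ≤ (k + 1) * ((2 * k + 2 + 2) * I.card * ((2 * k + 2 + 2) * I'.card)) := Nat.mul_le_mul_left _ h5
        _ = (2 * k + 4) * (2 * k + 4) * (k + 1) * (I.card * I'.card) := by ring
        _ ≤ (2 * k + 3) * (2 * k + 3) * (k + 2) * (I.card * I'.card) := Nat.mul_le_mul_right _ h6
        _ = (2 * k + 3) * (2 * k + 3) * ((k + 2) * (I.card * I'.card)) := by ring
    exact Nat.le_of_mul_le_mul_left h7 (by positivity)

theorem foe_pi {n : ℕ} {Q : Fin n → Type} [∀ i, Group (Q i)] (h : ∀ i, Foe (Q i)) : Foe (∀ i, Q i) := by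
  induction n with
  | zero => exact foe_triv fun q => funext fun i => i.elim0
  | succ n ih =>
    refine (foe_prod (h 0) (ih fun i => h i.succ)).congr
      { toFun := fun f => Fin.cons f.1 f.2
        invFun := fun f => (f 0, fun i => f i.succ)
        left_inv := fun f => rfl
        right_inv := fun f => by
          funext i
          refine Fin.cases rfl (fun i => rfl) i
        map_mul' := fun f g => by
          funext i
          refine Fin.cases rfl (fun i => rfl) i }

theorem foe_subgroup {Q : Type} [Group Q] (h : Foe Q) (H : Subgroup Q) : Foe H := by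
  classical
  intro S k
  let e : H ↪ Q := ⟨Subtype.val, Subtype.val_injective⟩
  obtain ⟨Φ, I, h1, h2, h3, h4⟩ := h (S.map e) k
  -- the cosets
  let r : Q → Q ⧸ H := fun q => (q : Q ⧸ H)
  let C : Finset (Q ⧸ H) := Φ.image r
  have hΦ : Φ.card = ∑ c ∈ C, (Φ.filter fun q => r q = c).card :=
    Finset.card_eq_sum_card_image r Φ
  have hI : I.card = ∑ c ∈ C, (I.filter fun q => r q = c).card :=
    Finset.card_eq_sum_card_fiberwise fun q hq => Finset.mem_image_of_mem r (h2 hq)
  obtain ⟨c, hc, hlt⟩ : ∃ c ∈ C, (I.filter fun q => r q = c).Nonempty ∧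
      (k + 1) * (Φ.filter fun q => r q = c).card ≤ (k + 2) * (I.filter fun q => r q = c).card := by
    by_contra hcon
    push Not at hcon
    have h5 : (k + 2) * I.card < (k + 1) * Φ.card := by
      rw [hΦ, hI, Finset.mul_sum, Finset.mul_sum]
      refine Finset.sum_lt_sum (fun c hc => ?_) ?_
      · by_cases hne : (I.filter fun q => r q = c).Nonempty
        · exact (hcon c hc hne).le
        · rw [Finset.not_nonempty_iff_eq_empty.1 hne, Finset.card_empty, mul_zero]
          exact Nat.zero_le _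
      · obtain ⟨q, hq⟩ := h1
        refine ⟨r q, Finset.mem_image_of_mem r (h2 hq), hcon _ (Finset.mem_image_of_mem r (h2 hq))
          ⟨q, Finset.mem_filter.2 ⟨hq, rfl⟩⟩⟩
    omega
  obtain ⟨⟨g, hg⟩, hle⟩ := hlt
  obtain ⟨hgI, hgc⟩ := Finset.mem_filter.1 hg
  have hcos : ∀ q, r q = c ↔ g⁻¹ * q ∈ H := by
    intro q
    rw [← hgc]
    exact ⟨fun h => QuotientGroup.eq.1 h.symm, fun h => (QuotientGroup.eq.2 h).symm⟩
  have hinj : ∀ X : Finset Q, ((X.preimage (fun x : H => g * (x : Q)) fun x _ y _ h => Subtype.ext (mul_left_cancel h))).card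
      = (X.filter fun q => r q = c).card := by
    intro X
    rw [← Finset.card_map ⟨fun x : H => g * (x : Q), fun x y h => Subtype.ext (mul_left_cancel h)⟩]
    congr 1
    ext q
    simp only [Finset.mem_map, Finset.mem_preimage, Function.Embedding.coeFn_mk, Finset.mem_filter]
    constructor
    · rintro ⟨x, hx, rfl⟩
      refine ⟨hx, (hcos _).2 ?_⟩
      rw [inv_mul_cancel_left]
      exact x.2
    · rintro ⟨hq, hqc⟩
      exact ⟨⟨g⁻¹ * q, (hcos q).1 hqc⟩, by simpa using hq, by simp⟩
  refine ⟨Φ.preimage (fun x : H => g * (x : Q)) (fun x _ y _ h => Subtype.ext (mul_left_cancel h)),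
    I.preimage (fun x : H => g * (x : Q)) (fun x _ y _ h => Subtype.ext (mul_left_cancel h)), ⟨1, ?_⟩, ?_, ?_, ?_⟩
  · rw [Finset.mem_preimage]
    simpa using hgI
  · intro x hx
    rw [Finset.mem_preimage] at hx ⊢
    exact h2 hx
  · intro x hx s hs
    rw [Finset.mem_preimage] at hx ⊢
    have := h3 _ hx (s : Q) (Finset.mem_map.2 ⟨s, hs, rfl⟩)
    rw [Subgroup.coe_mul, ← mul_assoc]
    exact this
  · rw [hinj, hinj]
    exact hle

theorem oreG_of {Q : Type} [Group Q] (h : Foe Q) (hL : LI Q) : OreG Q :=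
  oreG_of_foe (fun H => foe_subgroup h H) hL.noZeroDivisors

end SQ.T5
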