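import Pool.Agent.SQ.BO.Fam

/-!
# SQ, fifth stage: local independence
-/

set_option autoImplicit false

namespace SQ.T5

open SQ.T3 SQ.BO

variable {K : Type} [Group K]

/-- local independence: every nontrivial finitely generated subgroup has an independent pair -/
def Loc {E₁ E₂ : Type} [DivisionRing E₁] [DivisionRing E₂] (ρ₁ : K →* E₁ˣ) (ρ₂ : K →* E₂ˣ) : Prop :=
  ∀ S : Subgroup K, S.FG → S ≠ ⊥ → ∃ (N : Subgroup K) (t : K), ZP S N t ∧ BO.Ind ρ₁ N t ∧ BO.Ind ρ₂ N t

end SQ.T5
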