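import Pool.Agent.SQ.T5.Defs
import Pool.Agent.SQ.T5.Li
import Pool.Agent.SQ.T4.Apx

/-!
# SQ, fifth stage: the skew field of a residually (amenable and locally indicable) group
-/

set_option autoImplicit false

noncomputable section

namespace SQ.T5

open Filter SQ.Ultra SQ.Ore Singer SQ.T3 SQ.T4 SQ.BO

/-- residually (amenable and locally indicable) groups -/
def ResAL (K : Type) [Group K] : Prop :=
  ∀ g : K, g ≠ 1 → ∃ (Q : Type) (_ : Group Q) (π : K →* Q), Foe Q ∧ LI Q ∧ π g ≠ 1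

/-- the sequence of normal subgroups and the approximation -/
theorem exists_apx {K : Type} [Group K] [Countable K] (hK : ResAL K) :
    ∃ (A : Apx K) (F : Fil K), (∀ c, (A.p c).ker = F.M c) ∧ ∀ c, LI (A.G c) := by
  classical
  obtain ⟨f, hf⟩ := exists_surjective_nat K
  have hex : ∀ n, ∃ (Q : Type) (_ : Group Q) (π : K →* Q), Foe Q ∧ LI Q ∧ (f n ≠ 1 → π (f n) ≠ 1) := by
    intro n
    by_cases h : f n = 1
    · refine ⟨Unit, inferInstance, 1, foe_triv fun q => rfl, fun S _ hS => ?_, fun h' => absurd h h'⟩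
      exact absurd ((Subgroup.eq_bot_iff_forall S).2 fun x _ => rfl) hS
    · obtain ⟨Q, i, π, h1, h2, h3⟩ := hK (f n) h
      exact ⟨Q, i, π, h1, h2, fun _ => h3⟩
  choose Q iQ π hQ hL hπ using hex
  let G : ℕ → Type := fun c => ∀ i : Fin c, Q i
  let iG : ∀ c, Group (G c) := fun c => inferInstanceAs (Group (∀ i : Fin c, Q i))
  let P : ∀ c : ℕ, K →* G c := fun c => MonoidHom.pi fun i : Fin c => π i
  have hP : ∀ c g, g ∈ (P c).ker ↔ ∀ i < c, π i g = 1 := by
    intro c g
    rw [MonoidHom.mem_ker]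
    constructor
    · intro h i hi
      exact congrFun h ⟨i, hi⟩
    · intro h
      funext i
      exact h i i.2
  have hG1 : ∀ c, Foe (G c) := fun c => foe_pi fun i => hQ i
  have hG2 : ∀ c, LI (G c) := fun c => LI.pi fun i => hL i
  choose O u hu1 hu2 using fun c => s_div3 (G c) (hG2 c).noZeroDivisors (oreG_of (hG1 c) (hG2 c))
  refine ⟨{ G := G, grp := iG, ore := fun c => oreG_of (hG1 c) (hG2 c), halv := fun c => Foe.halving (hG1 c), O := O, f := u,
            frac := hu1, f_of := hu2, p := P },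
    { M := fun c => (P c).ker
      normal := fun c => inferInstance
      zero := ?_
      anti := ?_
      inf := ?_ }, fun c => rfl, hG2⟩
  · rw [eq_top_iff]
    intro g _
    rw [hP]
    intro i hi
    exact absurd hi (Nat.not_lt_zero i)
  · intro c g hg
    rw [hP] at hg ⊢
    exact fun i hi => hg i (Nat.lt_succ_of_lt hi)
  · intro g hg
    obtain ⟨n, rfl⟩ := hf g
    by_contra h
    exact hπ n h ((hP (n + 1) _).1 (hg (n + 1)) n (Nat.lt_succ_self n))

/-- the pair of a homomorphism -/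
theorem zp_of_chi {K : Type} [Group K] (S : Subgroup K) (ψ : S →* Multiplicative ℤ) (hψ : ∃ h, ψ h ≠ 1) :
    ∃ t : K, ZP S (ψ.ker.map S.subtype) t := by
  obtain ⟨t, ht⟩ := Foe.exists_gen ψ
  have ht1 : ψ t ≠ 1 := by
    intro h1
    obtain ⟨h, hh⟩ := hψ
    obtain ⟨n, hn⟩ := ht h
    exact hh (by rw [hn, h1, one_zpow])
  have hm : ∀ h : S, (h : K) ∈ ψ.ker.map S.subtype ↔ ψ h = 1 := by
    intro h
    rw [Subgroup.mem_map]
    constructor
    · rintro ⟨x, hx, hxh⟩
      have : x = h := Subtype.ext hxh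
      rw [← this]
      exact hx
    · intro hh
      exact ⟨h, hh, rfl⟩
  have hle : ψ.ker.map S.subtype ≤ S := by
    rintro _ ⟨x, _, rfl⟩
    exact x.2
  refine ⟨t, ⟨hle, t.2, ?_, ?_, ?_⟩⟩
  · intro g hg h hh
    have hhH : h ∈ S := hle hh
    have h1 : ψ ⟨h, hhH⟩ = 1 := (hm ⟨h, hhH⟩).1 hh
    have h2 : ψ (⟨g, hg⟩ * ⟨h, hhH⟩ * ⟨g, hg⟩⁻¹) = 1 := by
      rw [map_mul, map_mul, map_inv, h1, mul_one, mul_inv_cancel]
    exact (hm _).2 h2
  · intro g hg
    obtain ⟨n, hn⟩ := ht ⟨g, hg⟩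
    refine ⟨n, ?_⟩
    have h2 : ψ (⟨g, hg⟩ * t ^ (-n)) = 1 := by
      rw [map_mul, hn, map_zpow, ← zpow_add, add_neg_cancel, zpow_zero]
    have h3 := (hm _).2 h2
    simpa using h3
  · intro n hn
    have h3 : ψ (t ^ n) = 1 := by
      apply (hm (t ^ n)).1
      simpa using hn
    rw [map_zpow] at h3
    have h4 := congrArg Multiplicative.toAdd h3
    rw [toAdd_zpow, toAdd_one, smul_eq_mul] at h4
    rcases mul_eq_zero.1 h4 with h | h
    · exact h
    · exact absurd (by rw [← ofAdd_toAdd (ψ t), h, ofAdd_zero]) ht1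

/-- independence in the ultraproduct -/
theorem ind_zp {K : Type} [Group K] (A : Apx K) (F : Fil K) (hF : ∀ c, (A.p c).ker = F.M c) {S N : Subgroup K} {t : K}
    (h : ZP S N t) (m : ℕ) (hm : S ⊓ F.M m ≤ N) : BO.Ind A.ρ N t := by
  classical
  intro c hc h0
  have h1 := A.ind N c.support (fun u : ℤ => t ^ u) (by
      intro i _ j _ hij
      filter_upwards [eventually_ge_atTop m] with k hk hmem
      obtain ⟨y, hy, hyt⟩ := hmem
      have h2 : y⁻¹ * (t ^ i * (t ^ j)⁻¹) ∈ F.M m := by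
        apply F.antitone hk
        rw [← hF, MonoidHom.mem_ker, map_mul, map_inv, hyt, inv_mul_cancel]
      have h3 : y⁻¹ * (t ^ i * (t ^ j)⁻¹) ∈ N := hm ⟨S.mul_mem (S.inv_mem (h.le hy))
        (S.mul_mem (S.zpow_mem h.mem _) (S.inv_mem (S.zpow_mem h.mem _))), h2⟩
      have h4 : t ^ (i - j) ∈ N := by
        rw [zpow_sub]
        have h5 := N.mul_mem hy h3
        rwa [mul_inv_cancel_left] at h5
      have := h.inf _ h4
      omega) (fun u => c u) (fun u _ => hc u) (by
      rw [← h0, Finsupp.sum]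
      refine Finset.sum_congr rfl fun u _ => ?_
      rw [map_zpow])
  ext u
  by_cases hu : u ∈ c.support
  · exact h1 u hu
  · rw [Finsupp.coe_zero, Pi.zero_apply]
    exact Finsupp.notMem_support_iff.1 hu

/-- independence in the skew field generated by the group -/
theorem ind_sub {K : Type} [Group K] {E : Type} [DivisionRing E] {ρ : K →* Eˣ} {N : Subgroup K} {t : K} (h : BO.Ind ρ N t) :
    BO.Ind (sρ ρ) N t := by
  intro c hc h0
  have h1 : c.mapRange (val ρ) (map_zero _) = 0 := by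
    apply h
    · intro u
      rw [Finsupp.mapRange_apply, ← map_cl]
      exact ⟨c u, hc u, rfl⟩
    · rw [Finsupp.sum_mapRange_index (fun _ => zero_mul _)]
      have h2 := congrArg (val ρ) h0
      rw [map_zero, Finsupp.sum, map_sum] at h2
      rw [← h2, Finsupp.sum]
      refine Finset.sum_congr rfl fun u _ => ?_
      rw [map_mul, ← map_zpow, ← map_zpow, val_sρ]
  ext u
  have h2 := DFunLike.congr_fun h1 u
  rw [Finsupp.mapRange_apply, Finsupp.coe_zero, Pi.zero_apply] at h2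
  rw [Finsupp.coe_zero, Pi.zero_apply]
  exact val_inj ρ (h2.trans (map_zero _).symm)

/-- **the local independence** -/
theorem exists_loc {K : Type} [Group K] [Countable K] (hK : ResAL K) :
    ∃ A : Apx K, (∀ g, g ≠ 1 → ∀ᶠ c in atTop, A.p c g ≠ 1) ∧
      (LinearIndependent (ZMod 2) fun g : K => ((sρ A.ρ g : (SF A.ρ)ˣ) : SF A.ρ)) ∧ Loc (sρ A.ρ) (sρ A.ρ) := by
  classical
  obtain ⟨A, F, hF, hL⟩ := exists_apx hK
  have hsep : ∀ g, g ≠ 1 → ∃ m, g ∉ F.M m := by
    intro g hg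
    by_contra hcon
    push Not at hcon
    exact hg (F.inf g hcon)
  refine ⟨A, ?_, li_sρ A.ρ (ind_ρ A F hF), ?_⟩
  · intro g hg
    obtain ⟨m, hm⟩ := hsep g hg
    filter_upwards [eventually_ge_atTop m] with c hc h1
    rw [← MonoidHom.mem_ker, hF] at h1
    exact hm (F.antitone hc h1)
  · intro S hS hne
    obtain ⟨g, hg, hg1⟩ : ∃ g ∈ S, g ≠ 1 := by
      by_contra hcon
      push Not at hcon
      exact hne ((Subgroup.eq_bot_iff_forall S).2 hcon)
    obtain ⟨m, hm⟩ := hsep g hg1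
    rw [← hF] at hm
    obtain ⟨χ, s, hs⟩ := hL m (S.map (A.p m)) (fg_map hS _) (by
      intro h0
      have h1 : A.p m g ∈ S.map (A.p m) := Subgroup.mem_map_of_mem _ hg
      rw [h0, Subgroup.mem_bot] at h1
      exact hm h1)
    let r : S →* S.map (A.p m) := ((A.p m).comp S.subtype).codRestrict (S.map (A.p m)) fun h => Subgroup.mem_map_of_mem _ h.2
    obtain ⟨y, hy, hys⟩ := s.2
    obtain ⟨t, ht⟩ := zp_of_chi S (χ.comp r) ⟨⟨y, hy⟩, by
      have h2 : r ⟨y, hy⟩ = s := Subtype.ext hys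
      show χ (r ⟨y, hy⟩) ≠ 1
      rw [h2]
      exact hs⟩
    have hind : BO.Ind A.ρ ((χ.comp r).ker.map S.subtype) t := by
      refine ind_zp A F hF ht m ?_
      rintro x ⟨hxS, hxM⟩
      rw [← hF] at hxM
      replace hxM : A.p m x = 1 := hxM
      refine ⟨⟨x, hxS⟩, ?_, rfl⟩
      show χ (r ⟨x, hxS⟩) = 1
      have h2 : r ⟨x, hxS⟩ = 1 := Subtype.ext hxM
      rw [h2, map_one]
    exact ⟨_, t, ht, ind_sub hind, ind_sub hind⟩

end SQ.T5
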