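import Pool.Agent.SQ.T5.Apx
import Pool.Agent.SQ.T4.Final

/-!
# SQ, fifth stage: residually (amenable and locally indicable) groups, the final theorem, from the rows
-/

set_option autoImplicit false

noncomputable section

namespace SQ.T5

open Filter SQ.Ultra Singer Pool.Agent.Helper18.SQ Pool.Agent.Helper16.Cmp SQ.T3 SQ.T4 SQ.BO

/-- good families from the local independence -/
def StmtFam : Prop :=
  ∀ (K : Type) [Group K] (E : Type) [DivisionRing E] [Algebra (ZMod 2) E] (ρ : K →* Eˣ), Loc ρ ρ →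
    ∀ X : Finset E, (∀ x ∈ X, x ∈ cl ρ (⊤ : Subgroup K)) → Fam ρ ρ ⊤ (X : Set E)

/-- the homology from the good families -/
def StmtTor : Prop :=
  ∀ (K : Type) [Group K] (E : Type) [DivisionRing E] [Algebra (ZMod 2) E] [StarRing E] (ρ : K →* Eˣ),
    (∀ g, star ((ρ g : Eˣ) : E) = ((ρ g⁻¹ : Eˣ) : E)) → cl ρ (⊤ : Subgroup K) = ⊤ →
    (LinearIndependent (ZMod 2) fun g : K => ((ρ g : Eˣ) : E)) →
    (∀ X : Finset E, (∀ x ∈ X, x ∈ cl ρ (⊤ : Subgroup K)) → Fam ρ ρ ⊤ (X : Set E)) →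
    ∀ (R : FinRes K) (j : ℕ), ExH (diag ρ) R (j + 1)

theorem ResAL.li {K : Type} [Group K] (hK : ResAL K) : LI K :=
  LI.of_res fun g hg => by
    obtain ⟨Q, i, π, _, h2, h3⟩ := hK g hg
    exact ⟨Q, i, π, h2, h3⟩

/-- **the vanishing theorem for the residually (amenable and locally indicable) groups** (from the rows) -/
theorem vanE_resAL_of (hFam : StmtFam) (hTor : StmtTor) {K : Type} [Group K] (hK : ResAL K) {n : ℕ}
    (hn : IsPD n K) (R : FinRes K) (i : ℕ) (hi : 2 * i ≠ n) : R.VanE i := by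
  have hc : Countable K := T2.countable_of_finRes R
  obtain ⟨A, hsep, hli, hloc⟩ := exists_loc hK
  refine T4.vanE_of_ex A hsep R i (ex_base _ R i ?_)
  let _ : StarRing (SF A.ρ) := starSF A.ρ A.star_ρ
  have hst : ∀ g, star ((sρ A.ρ g : (SF A.ρ)ˣ) : SF A.ρ) = ((sρ A.ρ g⁻¹ : (SF A.ρ)ˣ) : SF A.ρ) := star_sρ A.ρ A.star_ρ
  exact vanish_of_tor lem hK.li.noInv (sρ A.ρ) hst hn R
    (hTor K (SF A.ρ) (sρ A.ρ) hst (cl_top A.ρ) hli (hFam K (SF A.ρ) (sρ A.ρ) hloc) R) i hi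

/-- the same for the groups with a residually (amenable and locally indicable) subgroup of finite index -/
theorem vanE_virtual_resAL_of (hFam : StmtFam) (hTor : StmtTor)
    {Γ : Type} [Group Γ] (H : Subgroup Γ) [hH : H.FiniteIndex] (hT : ResAL H) {n : ℕ}
    (hPD : IsPD n Γ ∨ IsPD n H) (R : FinRes Γ) (i : ℕ) (hi : 2 * i ≠ n) : R.VanE i :=
  FinRes.vanE_of_index H (fun R' => vanE_resAL_of hFam hTor hT
    (hPD.elim (fun h => h.of_finiteIndex H) id) R' i hi) R

end SQ.T5
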