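import Pool.Agent.SQ.T5.Final
import Pool.Agent.SQ.HH.Two
import Pool.Agent.SQ.HH.Mono
import Pool.Agent.SQ.BO.FamLoc

/-!
# SQ, fifth stage: the vanishing theorem for the residually (amenable and locally indicable) groups
-/

set_option autoImplicit false

namespace SQ.T5

open Singer SQ.T3 SQ.BO SQ.HH

theorem stmtFam : StmtFam := fun _ _ _ _ _ _ hloc X hX => fam_of_loc hloc X.finite_toSet hX

theorem stmtTor : StmtTor := by
  intro K _ E _ _ _ ρ hst htop hli hF R j
  refine (hv_iff_exH K (TensorProduct (ZMod 2) E E) (diag ρ) R j).1 ?_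
  refine HV_ofFam (MonoidHom.id K) (fun _ _ h => h) R ρ ρ hst htop htop hli (fun X hX => ?_) j
  have h1 := hF hX.toFinset fun x _ => by
    rw [htop]
    trivial
  rwa [Set.Finite.coe_toFinset] at h1

/-- **the vanishing theorem for the residually (amenable and locally indicable) Poincare duality groups** -/
theorem vanE_resAL {K : Type} [Group K] (hK : ResAL K) {n : ℕ} (hn : IsPD n K) (R : FinRes K) (i : ℕ)
    (hi : 2 * i ≠ n) : R.VanE i :=
  vanE_resAL_of stmtFam stmtTor hK hn R i hi

/-- **the vanishing theorem for the Poincare duality groups with a residually (amenable and locally indicable) subgroup of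
finite index** -/
theorem vanE_virtual_resAL {Γ : Type} [Group Γ] (H : Subgroup Γ) [H.FiniteIndex] (hT : ResAL H)
    {n : ℕ} (hPD : IsPD n Γ ∨ IsPD n H) (R : FinRes Γ) (i : ℕ) (hi : 2 * i ≠ n) : R.VanE i :=
  vanE_virtual_resAL_of stmtFam stmtTor H hT hPD R i hi

end SQ.T5
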